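import Pool.Agent.D0H90.WA.VA

/-!
# Weak abundance for log canonical pairs with very affine fibres over bases of logarithmic general
type

Let `(X, Δ)` be a projective log canonical pair of dimension `n` and `X ⇢ B` a dominant rational map to
a variety `B` of dimension `p`; `F` is a subfield of the function field `K` of `X` which contains the
function field of `B` and is algebraic over it. Suppose:

* (the base) there are `p + 1` logarithmic `m`-canonical forms on `B` (with poles of order at most `m`
  along a boundary divisor) whose ratios are algebraically independent: the logarithmic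
  `m`-canonical system of `B` is generically finite. Along every prime divisor `P` of `X` which
  does not dominate `B` either these forms are regular, or they have poles of order at most `m` and
  `(1 - Δ_P) ((p + 1) m + 1) < e`, where `e` divides all orders along `P` of the functions of the
  ratios (the multiplicity of the fibre along `P`);
* (the fibres) the function field of `X` is generated by functions `t j` and elements algebraic over
  `F`, and the zeros and poles of the `t j` over the generic point of `B` either have coefficient (at
  least) `1` in `Δ`, or have positive coefficient and the logarithmic forms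
  `dt/t ∧ ... ∧ dt/t` of top degree of the fibres are regular along them.

Then `κ (K_X + Δ) = ν (K_X + Δ) ≥ p`.

The number `(p + 1) m + 1` is best possible for the inequality `κ ≥ p` (complements of `p + 2`
general hyperplanes, `m = 1`).

The language and the definitions of `Pool.Agent.Y172` are used: `X` is given by the homogeneous
coordinates `y` of its generic point, with values in the function field `K` of `X`; the prime divisors
of `X` are places `P` of `K`, `P.ord` is the order along `P`.

Proof: if `ω_0, ..., ω_p` are the forms of the base, the Jacobian determinant of their ratios times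
`ω_0 ^ (p + 1)` is an `((p + 1) m + 1)`-canonical form, which at `P` has a pole of order at most
`(p + 1) m + 1 - e` (`wmat_ram`: the generalised Wronskian of functions of a subfield over which the
place has ramification index `e` vanishes to order `e - 1`). Its powers times `ω_j` and the forms
along the fibres are sections of multiples of `K_X + Δ` (`base_kod`); the numerical dimension is
bounded above by `upper` in `Pool.Agent.Y172`.
-/

set_option autoImplicit false

open FF Pool.Agent.W602.GT Pool.Agent.Y172

namespace Pool.Agent.Results.MP_2c56d9_ag.LogGeneralTypeBase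

section

variable {K : Type} [Field K] [Algebra ℂ K] {N : ℕ}

/-- `(X, Δ)` is a projective log canonical pair of dimension `n`, where `y` is the generic point of
`X`. -/
def LcPair (y : Fin (N + 1) → K) (n : ℕ) (Δ : Place ℂ K → ℚ) : Prop :=
  NormalModel y ∧ Algebra.trdeg ℂ K = n ∧ Effective y Δ ∧ LogCanonical y n Δ

/-- The place `P` is trivial on `F`: the prime divisor `P` dominates the base with the function
field `F`. -/
def Trivial (F : IntermediateField ℂ K) (P : Place ℂ K) : Prop := ∀ f ∈ F, f ≠ 0 → P.ord f = 0

/-- The `m`-canonical form `c (dx_1 ∧ ... ∧ dx_p) ^ m`, as a function of `p` vector fields. -/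
noncomputable def form {p : ℕ} (x : Fin p → K) (m : ℕ) (c : K) :
    (Fin p → Derivation ℂ K K) → K :=
  fun E => c * (Matrix.of fun i j => E i (x j) : Matrix (Fin p) (Fin p) K).det ^ m

/-- The field generated by the ratios `c j / c 0`. -/
noncomputable def ratioField {p : ℕ} (c : Fin (p + 1) → K) : IntermediateField ℂ K :=
  IntermediateField.adjoin ℂ (Set.range fun j : Fin p => c j.succ / c 0)

/-- The forms `c j (dx_1 ∧ ... ∧ dx_p) ^ m` are forms of the base with the function field `F`, and
their ratios are algebraically independent. -/
def IsSystem {p : ℕ} (F : IntermediateField ℂ K) (x : Fin p → K) (c : Fin (p + 1) → K) : Prop :=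
  (∀ j, x j ∈ F) ∧ AlgebraicIndependent ℂ x ∧ (∀ j, c j ∈ F) ∧ c 0 ≠ 0 ∧
    AlgebraicIndependent ℂ fun j : Fin p => c j.succ / c 0

/-- The logarithmic forms `dt/t ∧ ... ∧ dt/t` of degree `s` over `F` are regular along `P`. -/
def LogRegular {r : ℕ} (F : IntermediateField ℂ K) (s : ℕ) (t : Fin r → K) (P : Place ℂ K) : Prop :=
  ∀ (T : Fin s → Fin r) (G : Fin s → Derivation ℂ K K), (∀ i, ∀ f ∈ F, G i f = 0) →
    (∀ i, DerReg P (G i)) →
    P.Reg (Matrix.of fun i j => G i (t (T j)) / t (T j) : Matrix (Fin s) (Fin s) K).det

/-- The function field of `X` is generated by functions `t j` and the elements which are algebraic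
over `F`, and the prime divisors of `X` which are zeros or poles of some `t j` and are trivial on `F`
have coefficient at least `1` in `Δ`, or have positive coefficient and the logarithmic forms of
degree `s` (the dimension of the fibres) are regular along them. -/
def VeryAffineFibres (y : Fin (N + 1) → K) (Δ : Place ℂ K → ℚ) (F : IntermediateField ℂ K)
    (s : ℕ) : Prop :=
  ∃ (r : ℕ) (t : Fin r → K), (∀ j, t j ≠ 0) ∧
    IntermediateField.adjoin ℂ ({x : K | IsAlgebraic F x} ∪ Set.range t) = ⊤ ∧
    ∀ P, IsPrimeDivisor y P → Trivial F P → (∃ j, P.ord (t j) ≠ 0) →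
      1 ≤ Δ P ∨ (0 < Δ P ∧ LogRegular F s t P)

end

/-- Let `(X, Δ)` be a projective log canonical pair of dimension `n = p + s`, with very affine fibres
over a base of dimension `p` with the function field `F`, and let `c j (dx_1 ∧ ... ∧ dx_p) ^ m`,
`j = 0, ..., p`, be `m`-canonical forms of the base with algebraically independent ratios. Suppose
that along every prime divisor `P` of `X` which does not dominate the base either these forms are
regular, or they have order at least `-m`, and for some natural number `e` which divides the orders
along `P` of all functions of the ratios of the forms, `(1 - Δ_P) * ((p + 1) * m + 1) < e`.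
Then the Kodaira dimension of `K_X + Δ` and its numerical dimension (with respect to any effective
integral divisor `A`) are equal, and at least `p`. -/
theorem result {K : Type} [Field K] [Algebra ℂ K] {N n p s m : ℕ} (y : Fin (N + 1) → K)
    (Δ : Place ℂ K → ℚ) (hX : LcPair y n Δ) (F : IntermediateField ℂ K)
    (hp : Algebra.trdeg ℂ F = p) (hs : n = p + s) (x : Fin p → K) (c : Fin (p + 1) → K)
    (hc : IsSystem F x c)
    (hver : ∀ P, IsPrimeDivisor y P → ¬ Trivial F P →
      (∀ j, OrdGe P (form x m (c j)) 0) ∨
      ((∀ j, OrdGe P (form x m (c j)) (-m)) ∧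
        ∃ e : ℕ, (∀ f ∈ ratioField c, f ≠ 0 → (e : ℤ) ∣ P.ord f) ∧
          (1 - Δ P) * ((p + 1) * m + 1) < e))
    (hfib : VeryAffineFibres y Δ F s) :
    ∃ κ : ℕ, p ≤ κ ∧ kodairaDim y n Δ = (κ : WithBot ℕ) ∧
      ∀ A, Effective y A → Integral y A → numericalDim y n Δ A = (κ : EReal) := by
  obtain ⟨hy, hn, hΔ, hLC⟩ := hX
  obtain ⟨hxF, hx, hcF, hc0, hg⟩ := hc
  obtain ⟨r, t, ht, hgen, h2⟩ := hfib
  have hre : ∀ (j : Fin p) (w : K), c j.succ / c 0 * (c 0 * w) = c j.succ * w := fun j w => by
    rw [← mul_assoc, div_mul_cancel₀ _ hc0]
  refine Pool.Agent.D0H90.WA.base_weak hy hn hΔ hLC hp hs hx hxF hg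
    (fun j => div_mem (hcF _) (hcF _)) hc0 (hcF 0) (m := m) (fun P hP hnt => ?_) ht hgen h2
  rcases hver P hP hnt with h | ⟨h, e, he, hlt⟩
  · left
    have h3 : ∀ (j : Fin (p + 1)) (E : Fin p → Derivation ℂ K K), (∀ i, DerReg P (E i)) →
        Pool.Agent.W603.LV.Ge P 0 (form x m (c j) E) := by
      intro j E hE
      rcases h j E hE with h4 | h4
      · exact Or.inl h4
      · exact Or.inr (by exact_mod_cast h4)
    intro E hE
    refine ⟨h3 0 E hE, fun j => ?_⟩
    rw [hre]
    exact h3 j.succ E hE
  · right
    have h3 : ∀ (j : Fin (p + 1)) (E : Fin p → Derivation ℂ K K), (∀ i, DerReg P (E i)) →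
        Pool.Agent.W603.LV.Ge P (-(m : ℤ)) (form x m (c j) E) := by
      intro j E hE
      rcases h j E hE with h4 | h4
      · exact Or.inl h4
      · exact Or.inr (by exact_mod_cast h4)
    refine ⟨fun E hE => ⟨h3 0 E hE, fun j => ?_⟩, e, he, hlt⟩
    rw [hre]
    exact h3 j.succ E hE

end Pool.Agent.Results.MP_2c56d9_ag.LogGeneralTypeBase
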