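import Pool.Agent.D0H90.FC.Iit

/-!
# Weak abundance for pairs whose function field is generated by ratios of sections and by units

Let `(X, Δ)` be a projective log canonical pair of dimension `n` with function field `K`. Let
`φ 0, ..., φ (q - 1)` be ratios of sections of positive multiples of `K_X + Δ`, and let
`z 0, ..., z (r - 1)` be nonzero rational functions on `X`. Suppose that `K` is algebraic over the field
`ℂ(φ, z)`: the general fibres of the rational map `φ` (for example of the Iitaka fibration of
`K_X + Δ`, if the `φ i` generate the field of its base; there may also be no `φ i`) are generically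
finite over closed subvarieties of the torus `𝔾_m ^ r`. A prime divisor of `X` is *horizontal* if the
elements of `ℂ(φ)` are constant along it. Suppose that

* every horizontal prime divisor `P` of `X` along which some `z j` is not a unit has coefficient
  `Δ_P ≥ 1`, or `Δ_P > 0` and the logarithmic forms `dz/z ∧ ... ∧ dz/z` of degree `s` over `ℂ(φ)` are
  regular along `P`, where `s` is the dimension of the fibres;
* over the prime divisors of the normalisation of the image `W` of `X` under `(φ, z)` which have an
  unramified horizontal prime divisor of `X` over them with coefficient `0`, all places of `K` are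
  unramified and have nonnegative discrepancy with respect to `(X, Δ)`. (If `K` is a Galois extension
  of `ℂ(φ, z)`, or equal to it, the first part of the condition holds always.)

Then `K_X + Δ` satisfies weak abundance: the Kodaira dimension of `K_X + Δ` is equal to its numerical
dimension. Nothing is assumed on the prime divisors which are not horizontal, and the other
coefficients of `Δ` along the horizontal ones are arbitrary.

The language and the definitions of `Pool.Agent.Y172` are used: `X` is given by the homogeneous
coordinates `y` of its generic point, with values in the function field `K` of `X`; the prime divisors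
of `X` are places `P` of `K`, `P.ord` is the order along `P`.

Proof. Put `F = ℂ(φ)` and `L = ℂ(φ, z)`. The Gauss map of the fibres of `W` over `F` gives
`L = M(u)` with `M ⊇ F` and algebraically independent monomials `u` in the `z j` (`exists_gs`). Call an
irreducible polynomial `g` over `M` in the `u` *positive* if all prime divisors of `X` over the divisor
`g = 0` have positive coefficient or are ramified. The polynomials whose irreducible factors are all
positive define a field `M' ⊇ M` (`exists_fb`). From below: logarithmic forms along the fibres over `F`
with poles along the boundary and along positive divisors (`lower2`) are extended to absolute forms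
(`abs_form`) and pulled back to `X` (`form_up`); they are regular up to `Δ` along the horizontal prime
divisors. Their finitely many poles along other divisors are killed by multiplication with forms in
the sections which define `φ`, because for every prime divisor which is not horizontal some form in
these sections vanishes along it to higher order (`exists_van`, `iit_comb`). From above: sections of
`m (K_X + Δ) + A` are expanded in a basis of `K` over `L`; traces show that the coefficients have
poles, along the divisors `g = 0` which are not positive, of order bounded independently of `m`,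
because the places over them are unramified and have nonnegative discrepancy (`upper_fin`). Both
bounds have the same exponent (`rel_grow`).
-/

set_option autoImplicit false

open FF Pool.Agent.W602.GT Pool.Agent.Y172

namespace Pool.Agent.Results.MP_2c56d9_ag.SectionsAndUnits

section

variable {K : Type} [Field K] [Algebra ℂ K] {N q r : ℕ}

/-- `(X, Δ)` is a projective log canonical pair of dimension `n`, where `y` is the generic point of
`X`. -/
def LcPair (y : Fin (N + 1) → K) (n : ℕ) (Δ : Place ℂ K → ℚ) : Prop :=
  NormalModel y ∧ Algebra.trdeg ℂ K = n ∧ Effective y Δ ∧ LogCanonical y n Δ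

/-- The rational function `f` is the ratio of two sections of a positive multiple of `K_X + Δ`. -/
def IsRatio (y : Fin (N + 1) → K) (n : ℕ) (Δ : Place ℂ K → ℚ) (f : K) : Prop :=
  ∃ m : ℕ, 1 ≤ m ∧ ∃ θ θ' : (Fin n → Derivation ℂ K K) → K, IsSection y n m (m • Δ) θ ∧
    IsSection y n m (m • Δ) θ' ∧ ∃ D, θ' D ≠ 0 ∧ f = θ D / θ' D

/-- The field `ℂ(φ)`: the function field of the image of the rational map `φ`. -/
noncomputable def baseField (φ : Fin q → K) : IntermediateField ℂ K :=
  IntermediateField.adjoin ℂ (Set.range φ)

/-- The field `ℂ(φ, z)`: the function field of the image `W` of the rational map `(φ, z)`. -/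
noncomputable def imageField (φ : Fin q → K) (z : Fin r → K) : IntermediateField ℂ K :=
  IntermediateField.adjoin ℂ (Set.range φ ∪ Set.range z)

/-- The place `P` is horizontal with respect to `φ`: it is trivial on `ℂ(φ)`. -/
def Horizontal (φ : Fin q → K) (P : Place ℂ K) : Prop :=
  ∀ f ∈ baseField φ, f ≠ 0 → P.ord f = 0

/-- The logarithmic forms `dz/z ∧ ... ∧ dz/z` of degree `s` over `ℂ(φ)` are regular along `P`: their
values at `s` vector fields over `ℂ(φ)` which are logarithmic along `P` vanish along `P`. -/
def LogRegular (φ : Fin q → K) (z : Fin r → K) (s : ℕ) (P : Place ℂ K) : Prop :=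
  ∀ (T : Fin s → Fin r) (G : Fin s → Derivation ℂ K K), (∀ i, ∀ f ∈ baseField φ, G i f = 0) →
    (∀ i f, f ≠ 0 → G i f = 0 ∨ P.ord f ≤ P.ord (G i f)) →
    (Matrix.of fun i j => G i (z (T j)) / z (T j)).det = 0 ∨
      1 ≤ P.ord (Matrix.of fun i j => G i (z (T j)) / z (T j)).det

/-- The place `P` lies over a prime divisor of the normalisation of `W`: the `z j` are units along `P`,
and `n - 1` functions, each of them one of the `φ b` or a monomial in the `z j`, restrict to
algebraically independent functions on `P`. -/
def IsOverDivisor (φ : Fin q → K) (z : Fin r → K) (n : ℕ) (P : Place ℂ K) : Prop :=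
  (∀ j, P.ord (z j) = 0) ∧ ∃ v : Fin (n - 1) → K,
    (∀ i, (∃ b, v i = φ b) ∨ ∃ a : Fin r → ℤ, v i = ∏ j, z j ^ a j) ∧
    ∀ G : MvPolynomial (Fin (n - 1)) ℂ, G ≠ 0 →
      MvPolynomial.aeval v G ≠ 0 ∧ P.ord (MvPolynomial.aeval v G) = 0

/-- The place `P` is unramified over `ℂ(φ, z)`: some element of `ℂ(φ, z)` has order `1` along `P`. -/
def Unramified (φ : Fin q → K) (z : Fin r → K) (P : Place ℂ K) : Prop :=
  ∃ f ∈ imageField φ z, P.ord f = 1

/-- The places `P` and `P'` have the same restriction to `ℂ(φ, z)`: the same elements of `ℂ(φ, z)`
vanish along `P` and `P'`. -/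
def SameRestriction (φ : Fin q → K) (z : Fin r → K) (P P' : Place ℂ K) : Prop :=
  ∀ f ∈ imageField φ z, 0 < P.ord f ↔ 0 < P'.ord f

/-- The discrepancy of the place `Q` with respect to the pair `(X, Δ)` is nonnegative: some
`r`-canonical form which generates `r (K_X + Δ)` at the centre of `Q` on `X` (its order is `-r Δ_P`
along all prime divisors `P` of `X` through this centre) is regular along `Q`. -/
def NonnegDiscrepancy (y : Fin (N + 1) → K) (n : ℕ) (Δ : Place ℂ K → ℚ) (Q : Place ℂ K) : Prop :=
  ∃ r : ℕ, 0 < r ∧ ∃ η : (Fin n → Derivation ℂ K K) → K,
    IsPluri r η ∧ (∀ P, IsPrimeDivisor y P → Through y P Q → OrdEq P η (-(r * Δ P))) ∧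
      OrdGe Q η 0

end

/-- Let `(X, Δ)` be a projective log canonical pair of dimension `n` with function field `K`, let
`φ i` be ratios of sections of positive multiples of `K_X + Δ` and `z j` nonzero rational functions on
`X` such that `K` is algebraic over `ℂ(φ, z)`, and let `s` be the transcendence degree of `K` over
`ℂ(φ)`. Suppose that for all horizontal prime divisors `P` of `X` along which some `z j` is not a unit
`Δ_P ≥ 1`, or `Δ_P > 0` and the logarithmic forms in the `z j` of degree `s` over `ℂ(φ)` are regular
along `P`, and that for every horizontal prime divisor `P` of `X` with `Δ_P = 0` which is unramified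
over a prime divisor of the normalisation of `W`, all places `P'` of `K` with the same restriction to
`ℂ(φ, z)` as `P` are unramified over `ℂ(φ, z)` and have nonnegative discrepancy with respect to
`(X, Δ)`.

Then the Kodaira dimension and the numerical dimension of `K_X + Δ` are equal (the numerical
dimension with respect to any effective integral divisor `A`), and they are nonnegative. -/
theorem result {K : Type} [Field K] [Algebra ℂ K] {N n q r s : ℕ} (y : Fin (N + 1) → K)
    (Δ : Place ℂ K → ℚ) (hX : LcPair y n Δ) (φ : Fin q → K) (z : Fin r → K)
    (hφ : ∀ i, IsRatio y n Δ (φ i)) (hz : ∀ j, z j ≠ 0)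
    (hfin : ∀ f : K, IsAlgebraic (imageField φ z) f) (hs : Algebra.trdeg (baseField φ) K = s)
    (hbd : ∀ P, IsPrimeDivisor y P → Horizontal φ P → (∃ j, P.ord (z j) ≠ 0) →
      1 ≤ Δ P ∨ (0 < Δ P ∧ LogRegular φ z s P))
    (huni : ∀ P, IsPrimeDivisor y P → Δ P = 0 → Horizontal φ P → IsOverDivisor φ z n P →
      Unramified φ z P → ∀ P', SameRestriction φ z P P' →
        Unramified φ z P' ∧ NonnegDiscrepancy y n Δ P') :
    ∃ κ : ℕ, κ ≤ n ∧ kodairaDim y n Δ = (κ : WithBot ℕ) ∧
      ∀ A, Effective y A → Integral y A → numericalDim y n Δ A = (κ : EReal) := by
  obtain ⟨hy, hn, hΔ, hLC⟩ := hX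
  obtain ⟨κ, hκ, hG⟩ := Pool.Agent.D0H90.FC.iit_grow hy hn hΔ hLC hφ hz hs hfin
    (fun P h1 h2 h3 => (hbd P h1 h2 h3).imp id fun h => ⟨h.1, fun T G hG hl =>
      h.2 T G hG fun i f hf => by
        have h4 := hl i f
        by_cases h5 : G i f = 0
        · exact Or.inl h5
        · right
          rw [P.reg_iff (div_ne_zero h5 hf), P.ord_div h5 hf] at h4
          omega⟩)
    (fun P h1 h2 h3 h4 h5 h6 P' h7 => huni P h1 h2 h3 ⟨h4, h5⟩ h6 P' h7)
  exact ⟨κ, hκ, Pool.Agent.D0H90.FC.grow_dims hy hn hΔ hG⟩

end Pool.Agent.Results.MP_2c56d9_ag.SectionsAndUnits
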