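import Pool.Agent.D0H90.WA.Dich2

/-!
# Weak abundance for log canonical compactifications of very affine varieties

Let `W` be any closed subvariety of an algebraic torus, `z` its generic point, and `(X, Δ)` a
projective log canonical pair of dimension `n` such that the functions `z j` generate the function
field of `X` and every prime divisor of (the normalisation of) `W` has nonnegative discrepancy with
respect to `(X, Δ)`; for instance, `X` is a normal projective compactification of the normalisation
of `W`, and `Δ` is supported on the boundary. Let `B` be the quotient of `W` by the identity component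
of its stabiliser in the torus, `p` its dimension and `s = n - p`. Then:

* if some prime divisor `P` of `X` which dominates `B` has coefficient `Δ_P < 1`, and some form
  `dlog w_1 ∧ ... ∧ dlog w_s` on the fibres over `B`, where the `w_j` are monomials in the `z j`, has a
  pole along `P`, then `κ (K_X + Δ) = ν (K_X + Δ) = -∞`;
* if there is no such `P`, and `(1 - Δ_P) (p + 2) < e` for all prime divisors `P` of `X` along which
  some invariant monomial is not a unit, where `e` divides the orders along `P` of all elements of
  the function field of `B` (for instance `e = 1`: the coefficients are greater than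
  `1 - 1 / (p + 2)`), then `κ (K_X + Δ) = ν (K_X + Δ) = p`.

So `κ = ν` for all such pairs whose vertical boundary coefficients are greater than
`1 - 1 / (p + 2)`, and both dimensions are determined. There is no condition on the horizontal
divisors.

The language and the definitions of `Pool.Agent.Y172` are used: `X` is given by the homogeneous
coordinates `y` of its generic point, with values in the function field `K` of `X`; the prime divisors
of `X` are places `P` of `K`, `P.ord` is the order along `P`.

Proof: on the vector fields of a frame which is adapted to the torus action, the sections of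
`m (K_X + Δ) + A` are, up to a fixed denominator, Laurent polynomials with exponents which are
bounded independently of `m` (`lau_bound`); along `P` as in the first case their order would be at
least `m (1 - Δ_P) - A_P` (`sec_log`). In the second case the lower bound comes from the Jacobian
determinant of the ratios of the logarithmic forms of `B` (`torus_hb`).
-/

set_option autoImplicit false

open FF Pool.Agent.W602.GT Pool.Agent.Y172

namespace Pool.Agent.Results.MP_2c56d9_ag.VeryAffineDichotomy

section

variable {K : Type} [Field K] [Algebra ℂ K] {N : ℕ}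

/-- `(X, Δ)` is a projective log canonical pair of dimension `n`, where `y` is the generic point of
`X`. -/
def LcPair (y : Fin (N + 1) → K) (n : ℕ) (Δ : Place ℂ K → ℚ) : Prop :=
  NormalModel y ∧ Algebra.trdeg ℂ K = n ∧ Effective y Δ ∧ LogCanonical y n Δ

/-- The vector field `∑ b j z j ∂/∂z j` is tangent to the subvariety `W` of the torus with generic
point `z`: there is a derivation `H` of `K` with `H (z j) = b j * z j`. -/
def Tangent {r : ℕ} (z : Fin r → K) (b : Fin r → ℤ) : Prop :=
  ∃ H : Derivation ℂ K K, ∀ j, H (z j) = (b j : K) * z j

/-- The monomial `∏ j, z j ^ a j` is killed by all tangent vector fields `∑ b j z j ∂/∂z j`. -/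
def Invariant {r : ℕ} (z : Fin r → K) (a : Fin r → ℤ) : Prop :=
  ∀ b, Tangent z b → ∑ j, a j * b j = 0

/-- The field generated by the invariant monomials: the function field of the quotient `B` of `W` by
the identity component of its stabiliser. -/
noncomputable def baseField {r : ℕ} (z : Fin r → K) : IntermediateField ℂ K :=
  IntermediateField.adjoin ℂ {w | ∃ a, Invariant z a ∧ w = ∏ j, z j ^ a j}

/-- The discrepancy of the place `Q` with respect to the pair `(X, Δ)` is nonnegative: some
`r`-canonical form which generates `r (K_X + Δ)` at the centre of `Q` on `X` (its order is `-r Δ_P`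
along all prime divisors `P` of `X` through this centre) is regular along `Q`. -/
def NonnegDiscrepancy (y : Fin (N + 1) → K) (n : ℕ) (Δ : Place ℂ K → ℚ) (Q : Place ℂ K) : Prop :=
  ∃ r : ℕ, 0 < r ∧ ∃ η : (Fin n → Derivation ℂ K K) → K,
    IsPluri r η ∧ (∀ P, IsPrimeDivisor y P → Through y P Q → OrdEq P η (-(r * Δ P))) ∧
      OrdGe Q η 0

/-- The place `Q` is a prime divisor of the normalisation of `W`: the `z j` are units along `Q`, and
`n - 1` monomials in the `z j` restrict to algebraically independent functions on `Q`. -/
def IsDivisorOf {r : ℕ} (z : Fin r → K) (n : ℕ) (Q : Place ℂ K) : Prop :=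
  (∀ j, Q.ord (z j) = 0) ∧ ∃ a : Fin (n - 1) → Fin r → ℤ,
    ∀ G : MvPolynomial (Fin (n - 1)) ℂ, G ≠ 0 →
      MvPolynomial.aeval (fun i => ∏ j, z j ^ a i j) G ≠ 0 ∧
      Q.ord (MvPolynomial.aeval (fun i => ∏ j, z j ^ a i j) G) = 0

/-- All forms `dlog w_1 ∧ ... ∧ dlog w_s` over `F`, where the `w_j` are monomials in the `z j`, are
regular along `P`. -/
def LogRegular {r : ℕ} (F : IntermediateField ℂ K) (s : ℕ) (z : Fin r → K) (P : Place ℂ K) : Prop :=
  ∀ (T : Fin s → Fin r → ℤ) (G : Fin s → Derivation ℂ K K), (∀ i, ∀ f ∈ F, G i f = 0) →
    (∀ i, DerReg P (G i)) →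
    P.Reg (Matrix.of fun i j => G i (∏ k, z k ^ T j k) / ∏ k, z k ^ T j k :
      Matrix (Fin s) (Fin s) K).det

/-- The prime divisor `P` of `X` dominates `B` (it is trivial on the function field of `B`), some
logarithmic form of degree `s` of the fibres has a pole along `P`, and the coefficient of `P` in `Δ`
is less than `1`. -/
def Missing {r : ℕ} (y : Fin (N + 1) → K) (Δ : Place ℂ K → ℚ) (s : ℕ) (z : Fin r → K)
    (P : Place ℂ K) : Prop :=
  IsPrimeDivisor y P ∧ (∀ f ∈ baseField z, f ≠ 0 → P.ord f = 0) ∧
    ¬ LogRegular (baseField z) s z P ∧ Δ P < 1

end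

/-- Let `(X, Δ)` be a projective log canonical pair of dimension `n = p + s`, birational to the closed
subvariety `W` of a torus with generic point `z`, such that the prime divisors of the normalisation
of `W` have nonnegative discrepancy with respect to `(X, Δ)`, and let `p` be the dimension of the
quotient `B` of `W` by the identity component of its stabiliser, with the function field
`baseField z`.

If there is a prime divisor `P` of `X` with `Missing y Δ s z P`, the Kodaira dimension and the
numerical dimension of `K_X + Δ` are `-∞`. If there is none, and `(1 - Δ_P) * (p + 2) < e`, for some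
`e` which divides the orders along `P` of the elements of `baseField z`, whenever some invariant
monomial is not a unit along the prime divisor `P` of `X`, the Kodaira dimension and the numerical
dimension of `K_X + Δ` are `p` (the numerical dimension with respect to any effective integral
divisor `A`, in both cases). -/
theorem result {K : Type} [Field K] [Algebra ℂ K] {N n p s r : ℕ} (y : Fin (N + 1) → K)
    (Δ : Place ℂ K → ℚ) (hX : LcPair y n Δ) (z : Fin r → K) (hz : ∀ j, z j ≠ 0)
    (hW : IntermediateField.adjoin ℂ (Set.range z) = ⊤)
    (hint : ∀ Q, IsDivisorOf z n Q → NonnegDiscrepancy y n Δ Q)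
    (hp : Algebra.trdeg ℂ (baseField z) = p) (hs : n = p + s) :
    ((∃ P, Missing y Δ s z P) → kodairaDim y n Δ = ⊥ ∧
      ∀ A, Effective y A → Integral y A → numericalDim y n Δ A = ⊥) ∧
    ((¬ ∃ P, Missing y Δ s z P) →
      (∀ P, IsPrimeDivisor y P → (∃ a, Invariant z a ∧ P.ord (∏ j, z j ^ a j) ≠ 0) →
        ∃ e : ℕ, (∀ f ∈ baseField z, f ≠ 0 → (e : ℤ) ∣ P.ord f) ∧ (1 - Δ P) * (p + 2) < e) →
      kodairaDim y n Δ = (p : WithBot ℕ) ∧
        ∀ A, Effective y A → Integral y A → numericalDim y n Δ A = (p : EReal)) := by
  obtain ⟨hy, hn, hΔ, hLC⟩ := hX
  obtain ⟨h1, h2⟩ := Pool.Agent.D0H90.WA.va_dich (F := baseField z) hy hn hΔ hLC hz hW rfl hp hs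
    fun Q h3 h4 => hint Q ⟨h3, h4⟩
  refine ⟨h2, fun hno hver => h1 (fun P hP hPF hreg => ?_) hver⟩
  by_contra hcon
  push Not at hcon
  exact hno ⟨P, hP, hPF, hreg, hcon⟩

end Pool.Agent.Results.MP_2c56d9_ag.VeryAffineDichotomy
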