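import Pool.Agent.D0H90.WA.VA

/-!
# Weak abundance for log canonical pairs with very affine interior and large boundary coefficients

Let `W` be any closed subvariety of an algebraic torus, `z` its generic point, and `(X, Δ)` a
projective log canonical pair of dimension `n` such that `X` is birational to `W`: the functions `z j`
generate the function field `K` of `X`. Let `B` be the quotient of `W` by the identity component of
its stabiliser in the torus; its function field `F` is generated by the monomials in the `z j` which
are invariant, that is killed by all vector fields `∑ b j z j ∂/∂z j` with integers `b j` which are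
tangent to `W`. Let `p` be the dimension of `B` and `s = n - p`. Suppose:

* `(1 - Δ_P) (p + 2) < e` for the prime divisors `P` of `X` along which some invariant monomial is not
  a unit; `e` is a natural number which divides the orders along `P` of all elements of `F` (for
  instance `e = 1`: the coefficients are greater than `1 - 1 / (p + 2)`);
* if the prime divisor `P` of `X` dominates `B` and some `z j` is not a unit along it, then
  `Δ_P ≥ 1`, or `Δ_P > 0` and the logarithmic forms `dz/z ∧ ... ∧ dz/z` of degree `s` of the fibres
  over `B` are regular along `P`.

Then `κ (K_X + Δ) = ν (K_X + Δ) ≥ p`. The coefficients of all other prime divisors are arbitrary. In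
particular, weak abundance holds for all log canonical pairs `(X, Δ)` such that `K` is generated by
units of `X` minus the support of `Δ`, the coefficients of `Δ` are greater than `1 - 1 / (n + 2)` along
the zeros and poles of these units, and equal to `1` along the horizontal log canonical places.
The bound `p + 2` is best possible for the inequality `κ ≥ p`.

The language and the definitions of `Pool.Agent.Y172` are used: `X` is given by the homogeneous
coordinates `y` of its generic point, with values in the function field `K` of `X`; the prime divisors
of `X` are places `P` of `K`, `P.ord` is the order along `P`.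

Proof: `B` is a closed subvariety of a torus with finite stabiliser (`exists_quot`), so the
logarithmic forms of top degree `dm/m ∧ ... ∧ dm/m` (`m` invariant monomials) have `p`
algebraically independent ratios (`gauss_forms`), and the Jacobian determinant of these ratios
gives sections of multiples of `K_X + Δ` (`base_kod`, together with forms along the fibres); the
numerical dimension is bounded above by `upper` in `Pool.Agent.Y172`.
-/

set_option autoImplicit false

open FF Pool.Agent.W602.GT Pool.Agent.Y172

namespace Pool.Agent.Results.MP_2c56d9_ag.VeryAffineInterior

section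

variable {K : Type} [Field K] [Algebra ℂ K] {N : ℕ}

/-- `(X, Δ)` is a projective log canonical pair of dimension `n`, where `y` is the generic point of
`X`. -/
def LcPair (y : Fin (N + 1) → K) (n : ℕ) (Δ : Place ℂ K → ℚ) : Prop :=
  NormalModel y ∧ Algebra.trdeg ℂ K = n ∧ Effective y Δ ∧ LogCanonical y n Δ

/-- The vector field `∑ b j z j ∂/∂z j` is tangent to the subvariety `W` of the torus with generic
point `z`: there is a derivation `H` of `K` with `H (z j) = b j * z j`. -/
def Tangent {r : ℕ} (z : Fin r → K) (b : Fin r → ℤ) : Prop :=
  ∃ H : Derivation ℂ K K, ∀ j, H (z j) = (b j : K) * z j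

/-- The monomial `∏ j, z j ^ a j` is killed by all tangent vector fields `∑ b j z j ∂/∂z j`. -/
def Invariant {r : ℕ} (z : Fin r → K) (a : Fin r → ℤ) : Prop :=
  ∀ b, Tangent z b → ∑ j, a j * b j = 0

/-- The field generated by the invariant monomials: the function field of the quotient `B` of `W` by
the identity component of its stabiliser. -/
noncomputable def baseField {r : ℕ} (z : Fin r → K) : IntermediateField ℂ K :=
  IntermediateField.adjoin ℂ {w | ∃ a, Invariant z a ∧ w = ∏ j, z j ^ a j}

/-- The logarithmic forms `dz/z ∧ ... ∧ dz/z` of degree `s` over `F` are regular along `P`. -/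
def LogRegular {r : ℕ} (F : IntermediateField ℂ K) (s : ℕ) (z : Fin r → K) (P : Place ℂ K) : Prop :=
  ∀ (T : Fin s → Fin r) (G : Fin s → Derivation ℂ K K), (∀ i, ∀ f ∈ F, G i f = 0) →
    (∀ i, DerReg P (G i)) →
    P.Reg (Matrix.of fun i j => G i (z (T j)) / z (T j) : Matrix (Fin s) (Fin s) K).det

end

/-- Let `(X, Δ)` be a projective log canonical pair of dimension `n = p + s`, birational to the closed
subvariety `W` of a torus with generic point `z`, let `F = baseField z` be the function field of the
quotient `B` of `W` by the identity component of its stabiliser, and `p` the dimension of `B`. Suppose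
that `(1 - Δ_P) * (p + 2) < e`, for some `e` which divides the orders along `P` of the elements of
`F`, if some invariant monomial is not a unit along the prime divisor `P` of `X`, and that
`Δ_P ≥ 1`, or `Δ_P > 0` and the logarithmic forms of degree `s` over `F` are regular along `P`, if
`P` is trivial on `F` (`P` dominates `B`) and some `z j` is not a unit along `P`. Then the Kodaira
dimension of `K_X + Δ` and its numerical dimension (with respect to any effective integral divisor
`A`) are equal, and at least `p`. -/
theorem result {K : Type} [Field K] [Algebra ℂ K] {N n p s r : ℕ} (y : Fin (N + 1) → K)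
    (Δ : Place ℂ K → ℚ) (hX : LcPair y n Δ) (z : Fin r → K) (hz : ∀ j, z j ≠ 0)
    (hW : IntermediateField.adjoin ℂ (Set.range z) = ⊤)
    (hp : Algebra.trdeg ℂ (baseField z) = p) (hs : n = p + s)
    (hver : ∀ P, IsPrimeDivisor y P → (∃ a, Invariant z a ∧ P.ord (∏ j, z j ^ a j) ≠ 0) →
      ∃ e : ℕ, (∀ f ∈ baseField z, f ≠ 0 → (e : ℤ) ∣ P.ord f) ∧ (1 - Δ P) * (p + 2) < e)
    (hhor : ∀ P, IsPrimeDivisor y P → (∀ f ∈ baseField z, f ≠ 0 → P.ord f = 0) →
      (∃ j, P.ord (z j) ≠ 0) → 1 ≤ Δ P ∨ (0 < Δ P ∧ LogRegular (baseField z) s z P)) :
    ∃ κ : ℕ, p ≤ κ ∧ kodairaDim y n Δ = (κ : WithBot ℕ) ∧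
      ∀ A, Effective y A → Integral y A → numericalDim y n Δ A = (κ : EReal) := by
  obtain ⟨hy, hn, hΔ, hLC⟩ := hX
  exact Pool.Agent.D0H90.WA.va_weak hy hn hΔ hLC hz hW rfl hp hs hver hhor

end Pool.Agent.Results.MP_2c56d9_ag.VeryAffineInterior
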